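import Pool.Agent.helper70.FI4E.SpecK

/-!
# Project fi4e, row EQA: automorphisms and quotient
-/

set_option autoImplicit false

namespace Pool.Agent.FI4E

open Pool.Agent.helper58.DC Pool.Agent.DI Pool.Agent.GR Pool.Agent.OB Pool.Agent.DR Pool.Agent.FI Pool.Agent.FI3 Pool.Agent.FI4

section

variable {G Gb : Type} [Group G] [Group Gb]

theorem EQA_inv {π : G →* Gb} {α : MulAut G} {αb : MulAut Gb} (h : Qa π α αb) (g : G) :
    αb⁻¹ (π g) = π (α⁻¹ g) := by
  apply αb.injective
  rw [MulAut.apply_inv_self, h, MulAut.apply_inv_self]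

/-- the automorphism of the quotient -/
theorem EQA_ex {R : Subgroup G} {π : G →* Gb} (hs : Function.Surjective π) (hk : ∀ g : G, π g = 1 ↔ g ∈ R)
    (α : MulAut G) (hα : ∀ g, g ∈ R ↔ α g ∈ R) : ∃ αb : MulAut Gb, Qa π α αb := by
  have hker : ∀ g h : G, π g = π h → π (α g) = π (α h) := by
    intro g h hgh
    have h1 : h⁻¹ * g ∈ R := by
      rw [← hk, map_mul, map_inv, hgh, inv_mul_cancel]
    have h2 := (hα _).1 h1
    rw [← hk, map_mul, map_inv, map_mul, map_inv] at h2
    exact (inv_mul_eq_one.mp h2).symm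
  have hker' : ∀ g h : G, π (α g) = π (α h) → π g = π h := by
    intro g h hgh
    have h1 : α (h⁻¹ * g) ∈ R := by
      rw [← hk, map_mul, map_inv, map_mul, map_inv, hgh, inv_mul_cancel]
    have h2 := (hα _).2 h1
    rw [← hk, map_mul, map_inv] at h2
    exact (inv_mul_eq_one.mp h2).symm
  let s : Gb → G := Function.surjInv hs
  have hsv : ∀ y, π (s y) = y := Function.surjInv_eq hs
  let f : Gb →* Gb :=
    { toFun := fun y => π (α (s y))
      map_one' := by
        change π (α (s 1)) = 1
        rw [hker (s 1) 1 (by rw [hsv, map_one]), map_one, map_one]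
      map_mul' := fun x y => by
        change π (α (s (x * y))) = π (α (s x)) * π (α (s y))
        rw [hker (s (x * y)) (s x * s y) (by rw [map_mul, hsv, hsv, hsv]), map_mul, map_mul] }
  have hf : ∀ g, f (π g) = π (α g) := fun g => hker _ _ (hsv _)
  have hbij : Function.Bijective f := by
    constructor
    · intro x y hxy
      have h1 : π (α (s x)) = π (α (s y)) := hxy
      have h2 := hker' _ _ h1
      rwa [hsv, hsv] at h2
    · intro y
      refine ⟨π (α⁻¹ (s y)), ?_⟩
      rw [hf, MulAut.apply_inv_self, hsv]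
  exact ⟨MulEquiv.ofBijective f hbij, hf⟩

end

theorem EQA : EQA_stmt := by
  classical
  intro p G Gb _ _ _ _ R π hQ α
  refine ⟨fun hR => EQA_ex hQ.sur hQ.ker α fun g => ?_, ?_⟩
  · constructor
    · intro hg
      have h1 : α g ∈ am α R := ⟨g, hg, rfl⟩
      rwa [hR] at h1
    · intro hg
      rw [← hR, mem_am, MulAut.inv_apply_self] at hg
      exact hg
  · intro αb hab
    refine ⟨?_, ?_, ?_, ?_, ?_⟩
    · intro n hn
      have h1 : ∀ m : ℕ, ∀ g : G, (αb ^ m) (π g) = π ((α ^ m) g) := by
        intro m
        induction m with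
        | zero => intro g; rfl
        | succ m ih =>
          intro g
          rw [pow_succ, pow_succ, MulAut.mul_apply, MulAut.mul_apply, hab, ih]
      ext y
      obtain ⟨g, rfl⟩ := hQ.sur y
      rw [h1, hn]
      rfl
    · intro g x
      rw [al_apply, al_apply, hab, map_mul, map_mul, map_inv]
    · intro Hb
      ext x
      rw [Subgroup.mem_comap, mem_am, mem_am, Subgroup.mem_comap, EQA_inv hab]
    · intro Cb
      have h3 : ∀ Hb : Subgroup Gb, (am αb Hb).comap π = am α (Hb.comap π) := by
        intro Hb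
        ext x
        rw [Subgroup.mem_comap, mem_am, mem_am, Subgroup.mem_comap, EQA_inv hab]
      constructor
      · intro h Q hQC
        have h4 := h (Q.comap π) (Finset.mem_image_of_mem _ hQC)
        rw [← h3] at h4
        exact Subgroup.comap_injective hQ.sur h4
      · intro h Q hQC
        obtain ⟨Q', hQ', rfl⟩ := Finset.mem_image.1 hQC
        rw [← h3, h Q' hQ']
    · intro f
      funext x
      change f (π (α⁻¹ x)) = f (αb⁻¹ (π x))
      rw [EQA_inv hab]

end Pool.Agent.FI4E
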